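import Pool.Agent.H33.SS.FinB
import Pool.Agent.H33.SS.FinD
import Pool.Agent.H33.SS.FinE

/-!
# Bounded orbit equivalence and base entropy: fibered groups, and a defect inequality for all sofic groups

Let `G` be a finitely generated infinite group.
(1) Let `G` be sofic, generated by `g_1, .., g_k`, let `K` be a subgroup of finite index and `x_1, .., x_m` elements of `K`
which generate a wq-normal subgroup of `K` and are the values of words in the `g_i` and their inverses of total length
`L`. If `(T, S)` is a bounded orbit equivalence of the Bernoulli shifts with bases `μ`, `ν` (`S` the inverse of `T`) and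
`S (g_i y)` is in `F S(y)` for all `i` and almost every `y`, `F` a finite set, then
`H(ν) ≤ H(μ) + (L / [G : K]) log |F|`.
(2) Any two bounded orbit equivalent Bernoulli shifts over `G` have the same base entropy if (a), (b) or (c) holds:
(a) a subgroup `H` of finite index has a finitely generated infinite normal subgroup `N` with `H / N` infinite, and `H` and
`H / N` are sofic;
(b) a sofic subgroup `H` of finite index is generated by a finitely generated infinite subgroup `F` and an element `t` with
`t F t⁻¹ ⊆ F`, and there is a homomorphism from `H` to the integers that is trivial on `F` and maps `t` to `1` (ascending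
HNN extensions);
(c) `G` is sofic and for some `g_1, .., g_k` the quotient `L / [G : K]` in (1) can be made arbitrarily small.
The definition of a bounded orbit equivalence and the formula for the base entropy are those of the frozen statement of
the problem.
-/

set_option autoImplicit false

open MeasureTheory

namespace Pool.Agent.Results.MP_9c7b56_an.FiberedGroups

/-- base entropy of the Bernoulli shift with base `μ` -/
noncomputable def BaseEntropy (μ : Measure ℝ) : ENNReal :=
  (∑' a : ℝ, ENNReal.ofReal (Real.negMulLog (μ {a}).toReal)) + (⊤ : ENNReal) * (1 - ∑' a : ℝ, μ {a})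

/-- `T` is a bounded orbit equivalence of the Bernoulli shifts over `G` with bases `μ` and `ν`, with inverse `S` -/
def BoundedOE (G : Type) [Group G] (μ ν : Measure ℝ) (T S : (G → ℝ) → (G → ℝ)) : Prop :=
  MeasurePreserving T (Measure.infinitePi (fun _ : G => μ)) (Measure.infinitePi (fun _ : G => ν)) ∧
  MeasurePreserving S (Measure.infinitePi (fun _ : G => ν)) (Measure.infinitePi (fun _ : G => μ)) ∧
  (∀ᵐ x ∂(Measure.infinitePi (fun _ : G => μ)), S (T x) = x) ∧
  (∀ᵐ y ∂(Measure.infinitePi (fun _ : G => ν)), T (S y) = y) ∧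
  (∀ g : G, ∃ F : Finset G, ∀ᵐ x ∂(Measure.infinitePi (fun _ : G => μ)),
    ∃ f ∈ F, T (fun h => x (g⁻¹ * h)) = fun h => T x (f⁻¹ * h)) ∧
  (∀ g : G, ∃ F : Finset G, ∀ᵐ y ∂(Measure.infinitePi (fun _ : G => ν)),
    ∃ f ∈ F, S (fun h => y (g⁻¹ * h)) = fun h => S y (f⁻¹ * h))

/-- any two bounded orbit equivalent Bernoulli shifts over `G` have the same base entropy -/
def EntropyInvariant (G : Type) [Group G] : Prop :=
  ∀ (μ ν : Measure ℝ) [IsProbabilityMeasure μ] [IsProbabilityMeasure ν],
    (∃ T S : (G → ℝ) → (G → ℝ), BoundedOE G μ ν T S) → BaseEntropy μ = BaseEntropy ν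

/-- sofic groups: for every finite set and every `ε > 0` there is a map to a finite symmetric group of degree `n > 0`
that is multiplicative on the finite set up to `ε n` points and such that the elements `g ≠ 1` of the finite set fix at
most `ε n` points -/
def Sofic (G : Type) [Group G] : Prop :=
  ∀ (F : Finset G) (ε : ℝ), 0 < ε → ∃ (n : ℕ) (σ : G → Equiv.Perm (Fin n)), 0 < n ∧
    (∀ g ∈ F, ∀ h ∈ F, ({i | σ g (σ h i) ≠ σ (g * h) i}.ncard : ℝ) ≤ ε * n) ∧
    ∀ g ∈ F, g ≠ 1 → ({i | σ g i = i}.ncard : ℝ) ≤ ε * n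

/-- `F` is wq-normal in `G`: for every proper subgroup `M` that contains `F` there is `u` outside `M` with
`M ∩ u⁻¹ M u` infinite -/
def WqNormal {G : Type} [Group G] (F : Subgroup G) : Prop :=
  ∀ M : Subgroup G, F ≤ M → (∀ u : G, {m | m ∈ M ∧ u * m * u⁻¹ ∈ M}.Infinite → u ∈ M) → M = ⊤

/-- the elements `x i` of `K` are the values of the words `w i` in the `g j` and their inverses (the pair `(j, true)` stands
for `g j`, the pair `(j, false)` for its inverse), and they generate a wq-normal subgroup of `K` -/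
def WqWords {G : Type} [Group G] {k : ℕ} (g : Fin k → G) (K : Subgroup G) {m : ℕ} (w : Fin m → List (Fin k × Bool))
    (x : Fin m → K) : Prop :=
  (∀ i, ((w i).map fun p => if p.2 then g p.1 else (g p.1)⁻¹).prod = (x i : G)) ∧
    WqNormal (Subgroup.closure (Set.range x))

/-- the inequality of (1) -/
def DefectBound (G : Type) [Group G] : Prop :=
  ∀ (k : ℕ) (g : Fin k → G), Subgroup.closure (Set.range g) = ⊤ → ∀ (K : Subgroup G) [K.FiniteIndex] (m : ℕ)
    (w : Fin m → List (Fin k × Bool)) (x : Fin m → K), WqWords g K w x →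
    ∀ (μ ν : Measure ℝ) [IsProbabilityMeasure μ] [IsProbabilityMeasure ν] (T S : (G → ℝ) → (G → ℝ)),
      BoundedOE G μ ν T S → ∀ F : Finset G,
      (∀ i, ∀ᵐ y ∂(Measure.infinitePi (fun _ : G => ν)),
        ∃ f ∈ F, S (fun h => y ((g i)⁻¹ * h)) = fun h => S y (f⁻¹ * h)) →
      BaseEntropy ν ≤ BaseEntropy μ +
        ENNReal.ofReal ((∑ i, ((w i).length : ℝ)) / K.index * Real.log F.card)

/-- (a): virtually an extension of an infinite group by a finitely generated infinite group -/
def Extension (G : Type) [Group G] : Prop :=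
  ∃ (H : Subgroup G) (_ : H.FiniteIndex) (N : Subgroup H) (_ : N.Normal), N.FG ∧ Infinite N ∧ Infinite (H ⧸ N) ∧
    Sofic H ∧ Sofic (H ⧸ N)

/-- (b): virtually an ascending HNN extension of a finitely generated infinite group -/
def Ascending (G : Type) [Group G] : Prop :=
  ∃ (H : Subgroup G) (_ : H.FiniteIndex) (F : Subgroup H) (t : H) (φ : H →* Multiplicative ℤ), Sofic H ∧ F.FG ∧
    Infinite F ∧ (∀ x ∈ F, t * x * t⁻¹ ∈ F) ∧ Subgroup.closure ((F : Set H) ∪ {t}) = ⊤ ∧ (∀ x ∈ F, φ x = 1) ∧
    φ t = Multiplicative.ofAdd 1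

/-- (c): sparse wq-normal subgroups of subgroups of finite index -/
def Sparse (G : Type) [Group G] : Prop :=
  Sofic G ∧ ∃ (k : ℕ) (g : Fin k → G), Subgroup.closure (Set.range g) = ⊤ ∧ ∀ ε : ℝ, 0 < ε →
    ∃ (K : Subgroup G) (_ : K.FiniteIndex) (m : ℕ) (w : Fin m → List (Fin k × Bool)) (x : Fin m → K),
      WqWords g K w x ∧ (∑ i, ((w i).length : ℝ)) ≤ ε * K.index

theorem result (G : Type) [Group G] [Group.FG G] [Infinite G] :
    (Sofic G → DefectBound G) ∧ (Extension G ∨ Ascending G ∨ Sparse G → EntropyInvariant G) := by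
  refine ⟨?_, ?_⟩
  · intro hs k g hg K hK m w x hw μ ν _ _ T S hTS F hF
    exact H33.SS.thm_f G hs k g hg K m w x hw.1 hw.2 F μ ν T S hTS.1 hTS.2.1 hTS.2.2.1 hTS.2.2.2.1 hTS.2.2.2.2.1
      hTS.2.2.2.2.2 hF
  · intro h μ ν _ _ hTS
    rcases h with ⟨H, hH, N, hN, hfg, hi, hq, hs, hs'⟩ | ⟨H, hH, F, t, φ, hs, hfg, hi, hc, hgen, hF, ht⟩ |
      ⟨hs, k, g, hg, hyp⟩
    · exact H33.SS.thm_b G inferInstance H N hfg hi hq hs hs' μ ν hTS
    · exact H33.SS.thm_e G inferInstance H hs F hfg hi t hc hgen φ hF ht μ ν hTS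
    · refine H33.SS.thm_d G hs k g hg (fun ε hε => ?_) μ ν hTS
      obtain ⟨K, hK, m, w, x, hw, hsum⟩ := hyp ε hε
      exact ⟨K, hK, m, w, x, hw.1, hw.2, hsum⟩

end Pool.Agent.Results.MP_9c7b56_an.FiberedGroups
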