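import Pool.Agent.H31.BE.Final

/-!
# Bounded orbit equivalence preserves base entropy for free products of finite and nilpotent groups

Let `G` be an infinite group that is isomorphic to the free product of finitely many groups `A i`, each of which
is finite, or finitely generated and nilpotent, or (more generally) has a subexponential Folner function
(`H31.BE.SubFol`) and an ascending sequence of generators (`H31.BE.HasSeries`). If two Bernoulli shifts over `G` are
bounded orbit equivalent then their base entropies are equal. The hypothesis on the orbit equivalence and the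
formula for the base entropy are those of the frozen statement of the problem.
-/

set_option autoImplicit false

open MeasureTheory

namespace Pool.Agent.Results.MP_9c7b56_an.FreeProducts

theorem result :
    ∀ (G : Type) [Group G] [Infinite G] (I : Type) [Fintype I] (A : I → Type) [∀ i, Group (A i)],
      Nonempty (Monoid.CoprodI A ≃* G) →
      (∀ i, Finite (A i) ∨ (Group.FG (A i) ∧ Group.IsNilpotent (A i)) ∨
        (H31.BE.SubFol (A i) ∧ H31.BE.HasSeries (A i))) →
      ∀ (μ ν : Measure ℝ) [IsProbabilityMeasure μ] [IsProbabilityMeasure ν],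
      (∃ T S : (G → ℝ) → (G → ℝ),
        MeasurePreserving T (Measure.infinitePi (fun _ : G => μ))
          (Measure.infinitePi (fun _ : G => ν)) ∧
        MeasurePreserving S (Measure.infinitePi (fun _ : G => ν))
          (Measure.infinitePi (fun _ : G => μ)) ∧
        (∀ᵐ x ∂(Measure.infinitePi (fun _ : G => μ)), S (T x) = x) ∧
        (∀ᵐ y ∂(Measure.infinitePi (fun _ : G => ν)), T (S y) = y) ∧
        (∀ g : G, ∃ F : Finset G, ∀ᵐ x ∂(Measure.infinitePi (fun _ : G => μ)),
          ∃ f ∈ F, T (fun h => x (g⁻¹ * h)) = fun h => T x (f⁻¹ * h)) ∧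
        (∀ g : G, ∃ F : Finset G, ∀ᵐ y ∂(Measure.infinitePi (fun _ : G => ν)),
          ∃ f ∈ F, S (fun h => y (g⁻¹ * h)) = fun h => S y (f⁻¹ * h))) →
      (∑' a : ℝ, ENNReal.ofReal (Real.negMulLog (μ {a}).toReal))
          + (⊤ : ENNReal) * (1 - ∑' a : ℝ, μ {a}) =
        (∑' a : ℝ, ENNReal.ofReal (Real.negMulLog (ν {a}).toReal))
          + (⊤ : ENNReal) * (1 - ∑' a : ℝ, ν {a}) := by
  intro G _ _ I _ A _ ⟨e⟩ hA μ ν _ _ h
  exact H31.BE.main_thm G I A e hA μ ν h

end Pool.Agent.Results.MP_9c7b56_an.FreeProducts
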