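import Pool.Agent.H33.HN.Fin

/-!
# Bounded orbit equivalence preserves base entropy for hyperbolic HNN extensions and amalgams of free groups over Z

(1) Let `u_1, .., u_m, v_1, .., v_m` (`m ≥ 1`) be elements of the free group `F_k` on `x_1, .., x_k` such that no `u_i` is
a proper power, every `v_i ≠ 1`, and no power `u_i ^ a` with `a ≠ 0` is conjugate in `F_k` to a power of another `u_j` or
to a power of any `v_j`. Let `H` be the multiple HNN extension
`< x_1, .., x_k, t_1, .., t_m | t_i u_i t_i⁻¹ = v_i >` of `F_k`. If `G` is an infinite group and the free product of `G`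
with a free group of finite rank `n ≥ 0` is isomorphic to `H`, then any two bounded orbit equivalent Bernoulli shifts over
`G` have the same base entropy.
(2) The same for all amalgamated products `G = < x_1, .., x_k, y_1, .., y_l | w(x) = w'(y) >` of two free groups over a
cyclic subgroup, where `w` is not a proper power and `w' ≠ 1`.
The hypothesis on the orbit equivalence and the formula for the base entropy are those of the frozen statement of the
problem.
-/

set_option autoImplicit false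

open MeasureTheory

namespace Pool.Agent.Results.MP_9c7b56_an.GraphsOfFreeGroups

/-- any two bounded orbit equivalent Bernoulli shifts over `G` have the same base entropy -/
def EntropyInvariant (G : Type) [Group G] : Prop :=
  ∀ (μ ν : Measure ℝ) [IsProbabilityMeasure μ] [IsProbabilityMeasure ν],
    (∃ T S : (G → ℝ) → (G → ℝ),
      MeasurePreserving T (Measure.infinitePi (fun _ : G => μ))
        (Measure.infinitePi (fun _ : G => ν)) ∧
      MeasurePreserving S (Measure.infinitePi (fun _ : G => ν))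
        (Measure.infinitePi (fun _ : G => μ)) ∧
      (∀ᵐ x ∂(Measure.infinitePi (fun _ : G => μ)), S (T x) = x) ∧
      (∀ᵐ y ∂(Measure.infinitePi (fun _ : G => ν)), T (S y) = y) ∧
      (∀ g : G, ∃ F : Finset G, ∀ᵐ x ∂(Measure.infinitePi (fun _ : G => μ)),
        ∃ f ∈ F, T (fun h => x (g⁻¹ * h)) = fun h => T x (f⁻¹ * h)) ∧
      (∀ g : G, ∃ F : Finset G, ∀ᵐ y ∂(Measure.infinitePi (fun _ : G => ν)),
        ∃ f ∈ F, S (fun h => y (g⁻¹ * h)) = fun h => S y (f⁻¹ * h))) →
    (∑' a : ℝ, ENNReal.ofReal (Real.negMulLog (μ {a}).toReal))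
        + (⊤ : ENNReal) * (1 - ∑' a : ℝ, μ {a}) =
      (∑' a : ℝ, ENNReal.ofReal (Real.negMulLog (ν {a}).toReal))
        + (⊤ : ENNReal) * (1 - ∑' a : ℝ, ν {a})

/-- the group `< x_1, .., x_k, t_1, .., t_m | t_i u_i t_i⁻¹ = v_i >` (`x_j = inl j`, `t_i = inr i`) -/
abbrev HNN {k m : ℕ} (u v : Fin m → FreeGroup (Fin k)) : Type :=
  PresentedGroup (Set.range fun i : Fin m => (FreeGroup.of (Sum.inr i) *
    FreeGroup.map Sum.inl (u i) * (FreeGroup.of (Sum.inr i))⁻¹ * (FreeGroup.map Sum.inl (v i))⁻¹ :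
      FreeGroup (Fin k ⊕ Fin m)))

/-- the group `< x_1, .., x_k, y_1, .., y_l | w(x) = w'(y) >` (`x_j = inl j`, `y_j = inr j`) -/
abbrev Amalgam {k l : ℕ} (w : FreeGroup (Fin k)) (w' : FreeGroup (Fin l)) : Type :=
  PresentedGroup ({FreeGroup.map Sum.inl w * (FreeGroup.map Sum.inr w')⁻¹} : Set (FreeGroup (Fin k ⊕ Fin l)))

theorem result :
    (∀ (k m n : ℕ) (u v : Fin m → FreeGroup (Fin k)), 1 ≤ m →
      (∀ i (w : FreeGroup (Fin k)) (e : ℤ), u i = w ^ e → e = 1 ∨ e = -1) → (∀ i, v i ≠ 1) →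
      (∀ i j, i ≠ j → ∀ (c : FreeGroup (Fin k)) (a b : ℤ), c * u i ^ a * c⁻¹ = u j ^ b → a = 0) →
      (∀ i j, ∀ (c : FreeGroup (Fin k)) (a b : ℤ), c * u i ^ a * c⁻¹ = v j ^ b → a = 0) →
      ∀ (G : Type) [Group G] [Infinite G], Nonempty (HNN u v ≃* Monoid.Coprod G (FreeGroup (Fin n))) →
        EntropyInvariant G) ∧
    ∀ (k l : ℕ) (w : FreeGroup (Fin k)) (w' : FreeGroup (Fin l)),
      (∀ (x : FreeGroup (Fin k)) (e : ℤ), w = x ^ e → e = 1 ∨ e = -1) → w' ≠ 1 →
      ∀ (G : Type) [Group G], Nonempty (Amalgam w w' ≃* G) → EntropyInvariant G := by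
  refine ⟨?_, ?_⟩
  · intro k m n u v hm hu hv huu huv G _ _ ⟨e⟩ μ ν _ _ h
    exact H33.HN.main_thmG k m n hm u v hu hv huu huv G e μ ν h
  · intro k l w w' hw hw' G _ ⟨e⟩ μ ν _ _ h
    exact H33.HN.amalgam k l w w' hw hw' G e μ ν h

end Pool.Agent.Results.MP_9c7b56_an.GraphsOfFreeGroups
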